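import Pool.Agent.Lib_helper23.TILF.Bohr
import Pool.Agent.Lib_helper87.Tilf.OddSet

/-!
A complete answer for the sets `E` whose traces on the Bohr neighbourhoods of `0` are Sidon sets or
piecewise Bohr sets, in particular for all Bohr open sets and all thick sets.

Sketch of the negative part.  If `E` had the property, then by Baire's theorem there would be `n`
such that the box averages (side `R`, generated by `2n` translations depending on `h`) of every `h` in
the unit ball of `C_E` without constant term are `O(1/R)`.  Let all traces of `E` on Bohr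
neighbourhoods of `0` be piecewise Bohr sets.  By compactness and the pigeonhole principle there
are a number `S` (depending on `n` and `R` only) and, for every `D`, at most `S` integers `B` and
one `d ≠ 0` such that `B + d j ∈ E` for all `|j| ≤ D` and such that for each choice of the
translations `b_1, …, b_{2n}` all products `B b_i` are almost integers for one of the `B`.  We take
`h(x) = ∑_B e(B x) u_B(d x)`, where the functions `u_B ≥ 0` have disjoint supports and each of them is
`1` on a translate of every box: on such a translate `h` is almost constant.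
-/

set_option autoImplicit false

namespace Pool.Agent.Results.MP_eb9c50_an.BohrGerms

open Pool.Agent.Lib_helper87.Tilf

/-- The Bohr neighbourhood of `0` in `ℤ` given by the points `α ∈ s` of `ℝ/ℤ` and the radius `δ`:
all integers `k` such that the distance of `kα` to `0` in `ℝ/ℤ` is less than `δ` for `α ∈ s`. -/
def Bohr (s : Finset UnitAddCircle) (δ : ℝ) : Set ℤ := {k | ∀ α ∈ s, ‖k • α‖ < δ}

/-- `T` is thick: it contains arbitrarily long intervals of integers. -/
def Thick (T : Set ℤ) : Prop := ∀ L : ℕ, ∃ a : ℤ, ∀ j : ℕ, j ≤ L → a + j ∈ T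

/-- `E` is a piecewise Bohr set: it contains the intersection of a thick set and a translate of a
Bohr neighbourhood of `0`. -/
def PiecewiseBohr (E : Set ℤ) : Prop :=
  ∃ (k : ℤ) (s : Finset UnitAddCircle) (δ : ℝ), 0 < δ ∧ ∃ T, Thick T ∧
    ∀ v ∈ Bohr s δ, k + v ∈ T → k + v ∈ E

/-- `U` is open in the Bohr topology of `ℤ`. -/
def BohrOpen (U : Set ℤ) : Prop :=
  ∀ k ∈ U, ∃ (s : Finset UnitAddCircle) (δ : ℝ), 0 < δ ∧ ∀ v ∈ Bohr s δ, k + v ∈ U

/-- The closure of `U` in the Bohr topology of `ℤ`. -/
def BohrClosure (U : Set ℤ) : Set ℤ :=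
  {k | ∀ (s : Finset UnitAddCircle) (δ : ℝ), 0 < δ → ∃ v ∈ Bohr s δ, k + v ∈ U}

/-- (1) If every trace of `E` on a Bohr neighbourhood of `0` is a Sidon set or a piecewise Bohr set,
then `E` has the automatic continuity property if and only if one of these traces is a Sidon set.

(2) If `U` is Bohr open, `T` is thick and `E` lies between `U ∩ T` and the Bohr closure of `U`, then
`E` has the automatic continuity property if and only if `0` is not in the Bohr closure of `U`. -/
theorem result :
    (∀ E : Set ℤ,
      (∀ (s : Finset UnitAddCircle) (δ : ℝ), 0 < δ →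
        IsSidon (E ∩ Bohr s δ) ∨ PiecewiseBohr (E ∩ Bohr s δ)) →
      (AutomaticContinuity E ↔
        ∃ (s : Finset UnitAddCircle) (δ : ℝ), 0 < δ ∧ IsSidon (E ∩ Bohr s δ))) ∧
    ∀ E U T : Set ℤ, BohrOpen U → Thick T → U ∩ T ⊆ E → E ⊆ BohrClosure U →
      (AutomaticContinuity E ↔ (0 : ℤ) ∉ BohrClosure U) := by
  constructor
  · intro E hE
    constructor
    · intro hAC
      by_contra hcon
      push Not at hcon
      refine Pool.Agent.Lib_helper23.TILF.not_automaticContinuity_of_criterion
        (Pool.Agent.Lib_helper23.TILF.criterion_of_germ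
          (Pool.Agent.Lib_helper23.TILF.germ_of_piecewise fun s δ hδ => ?_)) hAC
      rcases hE s δ hδ with h | h
      · exact absurd h (hcon s δ hδ)
      · exact h
    · rintro ⟨s, δ, hδ, h⟩
      exact automaticContinuity_of_sidon_near_zero s hδ h
  · intro E U T hU hT h1 h2
    constructor
    · intro hAC h0
      refine Pool.Agent.Lib_helper23.TILF.not_automaticContinuity_of_criterion
        (Pool.Agent.Lib_helper23.TILF.criterion_of_germ fun s δ hδ => ?_) hAC
      obtain ⟨v, hv, hvU⟩ := h0 s δ hδ
      rw [zero_add] at hvU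
      obtain ⟨s', δ', hδ', h⟩ := hU v hvU
      exact ⟨v, hv, s', δ', hδ', T, hT, fun w hw hwT => h1 ⟨h w hw, hwT⟩⟩
    · intro h0
      have h3 : ∃ (s : Finset UnitAddCircle) (δ : ℝ), 0 < δ ∧ ∀ v ∈ Bohr s δ, v ∉ U := by
        by_contra hcon
        push Not at hcon
        apply h0
        intro s δ hδ
        obtain ⟨v, hv, hvU⟩ := hcon s δ hδ
        exact ⟨v, hv, by rw [zero_add]; exact hvU⟩
      obtain ⟨s, δ, hδ, h⟩ := h3
      refine automaticContinuity_of_sidon_near_zero s (half_pos hδ) ?_
      have h4 : {k : ℤ | k ∈ E ∧ ∀ α ∈ s, ‖k • α‖ < δ / 2} = ∅ := by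
        rw [Set.eq_empty_iff_forall_notMem]
        rintro k ⟨hkE, hk⟩
        obtain ⟨v, hv, hvU⟩ := h2 hkE s (δ / 2) (half_pos hδ)
        refine h (k + v) ?_ hvU
        have h5 := Pool.Agent.Lib_helper23.TILF.bohr_add (s := s) hk hv
        rw [add_halves] at h5
        exact h5
      rw [h4]
      exact isSidon_empty

end Pool.Agent.Results.MP_eb9c50_an.BohrGerms
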