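import Pool.Agent.Lib_helper23.TILF.Local

/-!
A characterisation of the sets `E ⊆ ℤ` with the automatic continuity property.

Sketch.  If `E` has the property then every mean-zero `f ∈ C_E` is a finite sum of differences, so by
Baire's theorem there are `n`, `C` such that every such `f` has `n` translations whose box averages of
side `R` are at most `C ‖f‖ / R` for all `R`.  Conversely, if the box averages are `O(R^(-σ))`, let
`A_s` be the box average of side `2^s` and solve `f = (1 - P) F` with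
`P = ∑ (1 - θ) θ^s A_s`, `2^(-σ) < θ < 1`; this is possible with `‖F‖ ≤ C' ‖f‖` because of the decay
of `A_s f`.  Applying the hypothesis to `F` gives new translations, and with both sets of
translations the box averages of `f` are `O(R^(-σ-γ))`.  Repeating this one gets every exponent, and
an exponent larger than `1` gives the sum of differences by a dyadic telescoping sum.
-/

set_option autoImplicit false

namespace Pool.Agent.Results.MP_eb9c50_an.Characterization

open Pool.Agent.Lib_helper87.Tilf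

/-- The trigonometric polynomials with spectrum in `S`. -/
noncomputable def TrigPoly (S : Set ℤ) : Submodule ℂ C(UnitAddCircle, ℂ) :=
  Submodule.span ℂ {f | ∃ k ∈ S, f = (fourier k : C(UnitAddCircle, ℂ))}

/-- Every `f ∈ V` is the sum of `n` differences `g - g_a` with `a ∈ ℝ/ℤ`, `g ∈ V` and
`‖g‖ ≤ C ‖f‖`. -/
def SumOfDifferences (V : Submodule ℂ C(UnitAddCircle, ℂ)) (n : ℕ) (C : ℝ) : Prop :=
  ∀ f ∈ V, ∃ (a : Fin n → UnitAddCircle) (g : Fin n → C(UnitAddCircle, ℂ)),
    (∀ i, g i ∈ V ∧ ‖g i‖ ≤ C * ‖f‖) ∧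
      f = ∑ i, (g i - Pool.Agent.Lib_helper87.Tilf.translate (a i) (g i))

/-- For every `f ∈ V` there are `a_1, …, a_n ∈ ℝ/ℤ` such that for all `R ≥ 1` the average of the
translates of `f` by the `R^n` points `∑ m_i a_i`, `0 ≤ m_i < R`, has norm at most `C R^(-σ) ‖f‖`. -/
def BoxDecay (V : Submodule ℂ C(UnitAddCircle, ℂ)) (n : ℕ) (C σ : ℝ) : Prop :=
  ∀ f ∈ V, ∃ a : Fin n → UnitAddCircle, ∀ R : ℕ, 1 ≤ R → ∀ x : UnitAddCircle,
    ‖∑ m : Fin n → Fin R, f (x - ∑ i, (m i : ℕ) • a i)‖ ≤ C * (R : ℝ) ^ ((n : ℝ) - σ) * ‖f‖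

theorem boxDecay_of_dec {S : Set ℤ} {n : ℕ} {C σ : ℝ} (hC : 0 ≤ C) (h : Cha.DecP S n C σ) :
    BoxDecay (TrigPoly S) n C σ := by
  intro f hf
  obtain ⟨a, ha⟩ := h f hf
  refine ⟨a, fun R hR x => ?_⟩
  have hR' : (0 : ℝ) < R := by exact_mod_cast hR
  have h1 := (Cha.norm_av_iff hR a f (by positivity)).1 (ha R hR) x
  refine h1.trans (le_of_eq ?_)
  rw [sub_eq_add_neg, Real.rpow_add hR', Real.rpow_natCast]
  ring

theorem dec_of_boxDecay {S : Set ℤ} {n : ℕ} {C σ : ℝ} (h : BoxDecay (TrigPoly S) n C σ) :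
    Cha.DecP S n (max C 0) σ := by
  intro f hf
  obtain ⟨a, ha⟩ := h f hf
  refine ⟨a, fun R hR => ?_⟩
  have hR' : (0 : ℝ) < R := by exact_mod_cast hR
  have hm : 0 ≤ max C 0 := le_max_right _ _
  rw [Cha.norm_av_iff hR a f (by positivity)]
  intro x
  refine (ha R hR x).trans ?_
  rw [sub_eq_add_neg, Real.rpow_add hR', Real.rpow_natCast]
  have h2 : C ≤ max C 0 := le_max_left _ _
  have h3 : 0 ≤ (R : ℝ) ^ n * (R : ℝ) ^ (-σ) * ‖f‖ := by positivity
  nlinarith [mul_le_mul_of_nonneg_right h2 h3]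

/-- For a set `E` of integers the following are equivalent: (1) `E` has the automatic continuity
property; (2) for some `n`, `C` every `f ∈ C_E` of mean zero is a sum of `n` differences `g - g_a`
with `g ∈ C_E` of mean zero and `‖g‖ ≤ C ‖f‖`; (3) the same for trigonometric polynomials; (4) for
some `n`, `C` and `σ > 0` the box averages of every trigonometric polynomial `f` with spectrum in
`E \ {0}` are at most `C R^(-σ) ‖f‖` for suitable translations `a_1, …, a_n`; (5) this holds for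
every `σ`; (6) all subsets of `E` have the automatic continuity property; (7) the part of `E` in
some Bohr neighbourhood of `0` has the automatic continuity property. -/
theorem result (E : Set ℤ) : List.TFAE [
    AutomaticContinuity E,
    ∃ (n : ℕ) (C : ℝ), SumOfDifferences (CE (E \ {0})) n C,
    ∃ (n : ℕ) (C : ℝ), SumOfDifferences (TrigPoly (E \ {0})) n C,
    ∃ (n : ℕ) (C σ : ℝ), 0 < σ ∧ BoxDecay (TrigPoly (E \ {0})) n C σ,
    ∀ σ : ℝ, ∃ (n : ℕ) (C : ℝ), BoxDecay (TrigPoly (E \ {0})) n C σ,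
    ∀ E' : Set ℤ, E' ⊆ E → AutomaticContinuity E',
    ∃ (s : Finset UnitAddCircle) (δ : ℝ), 0 < δ ∧
      AutomaticContinuity {k : ℤ | k ∈ E ∧ ∀ α ∈ s, ‖k • α‖ < δ}] := by
  tfae_have 1 → 5 := by
    intro h σ
    obtain ⟨n, C, hC, hD⟩ := Cha.dec_of_automaticContinuity h
    obtain ⟨n', C', σ', hC', hσ', hD'⟩ := Cha.boot_all hD hC one_pos σ
    refine ⟨n', C', boxDecay_of_dec hC' fun f hf => ?_⟩
    obtain ⟨a, ha⟩ := Cha.decP_of_dec hD' f hf
    refine ⟨a, fun R hR => (ha R hR).trans ?_⟩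
    have hR' : (1 : ℝ) ≤ R := by exact_mod_cast hR
    have h1 : (R : ℝ) ^ (-σ') ≤ (R : ℝ) ^ (-σ) :=
      Real.rpow_le_rpow_of_exponent_le hR' (by linarith)
    gcongr
  tfae_have 5 → 4 := by
    intro h
    obtain ⟨n, C, h1⟩ := h 1
    exact ⟨n, C, 1, one_pos, h1⟩
  tfae_have 4 → 2 := by
    rintro ⟨n, C, σ, hσ, h⟩
    have hD := Cha.dec_of_decP (dec_of_boxDecay h)
    obtain ⟨n', C', σ', hC', hσ', hD'⟩ := Cha.boot_all hD (le_max_right _ _) hσ 2
    obtain ⟨C'', hE⟩ := Cha.exact_of_dec hD' hC' (by linarith)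
    exact ⟨n', C'', hE⟩
  tfae_have 2 → 3 := by
    rintro ⟨n, C, h⟩
    exact ⟨n, 2 * C, Cha.exactP_of_exact h⟩
  tfae_have 3 → 4 := by
    rintro ⟨n, C, h⟩
    have h' : Cha.ExactP (E \ {0}) n (max C 0) := by
      intro f hf
      obtain ⟨a, g, hg, hs⟩ := h f hf
      refine ⟨a, g, fun i => ⟨(hg i).1, (hg i).2.trans ?_⟩, hs⟩
      exact mul_le_mul_of_nonneg_right (le_max_left _ _) (norm_nonneg _)
    have hm : 0 ≤ max C 0 := le_max_right _ _
    exact ⟨n, 2 * n * max C 0, 1, one_pos, boxDecay_of_dec (by positivity) (Cha.decP_of_exactP h')⟩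
  tfae_have 2 → 1 := by
    rintro ⟨n, C, h⟩
    exact Cha.automaticContinuity_of_exact h
  tfae_have 1 → 6 := fun h E' hE' => Cha.automaticContinuity_subset h hE'
  tfae_have 6 → 7 := fun h => ⟨∅, 1, one_pos, h _ fun k hk => hk.1⟩
  tfae_have 7 → 1 := by
    rintro ⟨s, δ, hδ, h⟩
    exact Cha.automaticContinuity_of_local s hδ h
  tfae_finish

end Pool.Agent.Results.MP_eb9c50_an.Characterization
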