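import Pool.Agent.Lib_helper23.TILF.LacDiff

/-!
The differences of a lacunary sequence of positive integers with ratio at least `3` form a set with
the automatic continuity property none of whose traces on the Bohr neighbourhoods of `0` is a Sidon
set.
-/

namespace Pool.Agent.Results.MP_eb9c50_an.DifferenceSets

open Pool.Agent.Lib_helper87.Tilf

/-- Let `lam 0, lam 1, …` be positive integers with `lam (i + 1) ≥ 3 lam i` and let `E` be the set
of the differences `lam i - lam j`, `i ≠ j`.  Then `E` has the automatic continuity property, and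
for no Bohr neighbourhood `V = {k : ‖k α‖ < δ for all α ∈ s}` of `0` (`s` finite, `δ > 0`) is
`E ∩ V` a Sidon set; in particular (`s = ∅`) `E` is not a Sidon set. -/
theorem result (lam : ℕ → ℤ) (h0 : 0 < lam 0) (hlam : ∀ i : ℕ, 3 * lam i ≤ lam (i + 1)) :
    AutomaticContinuity {k : ℤ | ∃ i j : ℕ, i ≠ j ∧ k = lam i - lam j} ∧
    ∀ (s : Finset UnitAddCircle) (δ : ℝ), 0 < δ →
      ¬ IsSidon {k : ℤ | (∃ i j : ℕ, i ≠ j ∧ k = lam i - lam j) ∧ ∀ α ∈ s, ‖k • α‖ < δ} :=
  ⟨Cha.automaticContinuity_lacunary ⟨h0, hlam⟩,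
    fun s _ hδ => Cha.not_isSidon_trace_lac ⟨h0, hlam⟩ s hδ⟩

end Pool.Agent.Results.MP_eb9c50_an.DifferenceSets
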