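import Pool.Agent.Lib_helper23.TILF.FinSums

/-!
A set of integers that contains finite sums sets of all lengths does not have the automatic
continuity property.
-/

set_option autoImplicit false

namespace Pool.Agent.Results.MP_eb9c50_an.FiniteSums

open Pool.Agent.Lib_helper87.Tilf

/-- If for every `m` there are nonzero integers `x_1, …, x_m` such that all the sums `∑ i ∈ F, x i`
over nonempty sets `F` of indices belong to `E`, then `E` does not have the automatic continuity
property. -/
theorem result (E : Set ℤ) (hE : ∀ m : ℕ, ∃ x : Fin m → ℤ, (∀ i, x i ≠ 0) ∧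
    ∀ F : Finset (Fin m), F.Nonempty → ∑ i ∈ F, x i ∈ E) : ¬ AutomaticContinuity E :=
  Cha.not_automaticContinuity_of_HasFS hE

end Pool.Agent.Results.MP_eb9c50_an.FiniteSums
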